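import Pool.Agent.R663.KRB.Filta

/-!
# The filtration by the Sylow subgroups of the centralisers for the ordinary characters
-/

set_option autoImplicit false

open scoped Classical Pointwise

noncomputable section

namespace Pool.Agent.R663.KRB

open Pool.Agent.Y63.NV
open Pool.Agent.Y85.NV (cj mem_cj cj_one cj_mul cj_inv_cj cj_mono cj_le cj_pgroup cj_eq_map card_cj
  SYL exists_syl SYL.conj SYL.conj_of SYL.le_cent orb Stb stb_orb orb_symm self_orb orb_eq sum_zero
  VS_mono rst rst_apply rst_mem gen_eq card_orb)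

section

variable {F : Type} [Field F] {Γ : Type} [Group Γ] [Finite Γ]

/-- the members of `X` are the Sylow subgroups of the centralisers of the elements of `SXA` -/
def SXA (p : ℕ) (H : Subgroup Γ) (X : Set (Subgroup Γ)) : Set Γ :=
  {x | x ∈ H ∧ ∃ R ∈ X, SYL p H x R}

theorem SXA_conj {p : ℕ} {H : Subgroup Γ} {X : Set (Subgroup Γ)} (hX : Stb H X)
    {h x : Γ} (hh : h ∈ H) (hx : x ∈ SXA p H X) :
    h * x * h⁻¹ ∈ SXA p H X := by
  obtain ⟨h1, R, hR, h3⟩ := hx
  exact ⟨H.mul_mem (H.mul_mem hh h1) (H.inv_mem hh), cj h R, hX h hh R hR, h3.conj hh⟩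

theorem SXA_mono {p : ℕ} {H : Subgroup Γ} {X Y : Set (Subgroup Γ)} (h : X ⊆ Y) :
    SXA p H X ⊆ SXA p H Y := by
  rintro x ⟨h1, R, hR, h3⟩
  exact ⟨h1, R, h hR, h3⟩

theorem SXA_union {p : ℕ} {H : Subgroup Γ} (X Y : Set (Subgroup Γ)) :
    SXA p H (X ∪ Y) = SXA p H X ∪ SXA p H Y := by
  ext x
  constructor
  · rintro ⟨h1, R, hR | hR, h3⟩
    · exact Or.inl ⟨h1, R, hR, h3⟩
    · exact Or.inr ⟨h1, R, hR, h3⟩
  · rintro (hx | hx)
    · exact SXA_mono Set.subset_union_left hx
    · exact SXA_mono Set.subset_union_right hx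

theorem SXA_disj {p : ℕ} [Fact p.Prime] {H : Subgroup Γ} {X Y : Set (Subgroup Γ)}
    (hX : Stb H X) (hd : ∀ R ∈ X, R ∉ Y) {x : Γ} (hx : x ∈ SXA p H X) : x ∉ SXA p H Y := by
  rintro ⟨_, S, hS, h4⟩
  obtain ⟨_, R, hR, h3⟩ := hx
  obtain ⟨h, hh, rfl⟩ := h3.conj_of h4
  exact hd _ (hX h hh R hR) hS

theorem sa_iff {p : ℕ} [Fact p.Prime] {H R : Subgroup Γ} (hR : R ≤ H) (hp : IsPGroup p R)
    {x : Γ} : x ∈ SA p (H ⊓ Subgroup.normalizer (R : Set Γ)) R ↔
      x ∈ H ∧ SYL p H x R := by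
  constructor
  · rintro ⟨h1, h3, h4⟩
    exact ⟨(Subgroup.mem_inf.1 h1).1, hR, hp, h3,
      Pool.Agent.Y177.NV.card_cent hp hR h3 h4⟩
  · rintro ⟨h1, h3⟩
    refine ⟨Subgroup.mem_inf.2 ⟨h1, ?_⟩, h3.cent, ?_⟩
    · have : x ∈ Subgroup.centralizer (R : Set Γ) := by
        rw [Subgroup.mem_centralizer_iff]
        exact h3.cent
      exact (Subgroup.centralizer_le_normalizer (R : Set Γ)) this
    apply le_antisymm
    · rw [← h3.card]
      refine (Nat.factorization_le_iff_dvd Nat.card_pos.ne' Nat.card_pos.ne').2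
        (Subgroup.card_dvd_of_le ?_) p
      exact inf_le_inf_right _ inf_le_left
    · refine (Nat.factorization_le_iff_dvd Nat.card_pos.ne' Nat.card_pos.ne').2
        (Subgroup.card_dvd_of_le ?_) p
      exact le_inf (le_inf hR Subgroup.le_normalizer) (h3.le_cent.trans inf_le_right)

theorem sca_eq {p : ℕ} [Fact p.Prime] {H R : Subgroup Γ} (hR : R ≤ H) (hp : IsPGroup p R) :
    SCA p H R = SXA p H (orb H R) := by
  ext x
  constructor
  · rintro ⟨h, hh, hx⟩
    rw [sa_iff hR hp] at hx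
    have h1 : h * x * h⁻¹ ∈ SXA p H (orb H R) := ⟨hx.1, R, self_orb H R, hx.2⟩
    have h2 := SXA_conj (stb_orb H R) (H.inv_mem hh) h1
    simpa [mul_assoc] using h2
  · rintro ⟨h1, S, ⟨k, hk, rfl⟩, h3⟩
    refine ⟨k⁻¹, H.inv_mem hk, ?_⟩
    rw [sa_iff hR hp]
    refine ⟨H.mul_mem (H.mul_mem (H.inv_mem hk) h1) (H.inv_mem (H.inv_mem hk)), ?_⟩
    have h4 := h3.conj (H.inv_mem hk)
    rwa [cj_inv_cj] at h4

/-- The subgroups of the sum. -/
def GoodA (p : ℕ) (H R : Subgroup Γ) : Prop := IsPGroup p R ∧ R ≤ H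

theorem stb_goodA {p : ℕ} {H : Subgroup Γ} : Stb H {R | GoodA p H R} := by
  rintro h hh R ⟨h1, h2⟩
  exact ⟨cj_pgroup h1, cj_le hh h2⟩

theorem h0_eq {p : ℕ} [Fact p.Prime] {H : Subgroup Γ} :
    (H : Set Γ) = SXA p H {R | GoodA p H R} := by
  ext x
  constructor
  · intro h1
    obtain ⟨R, _, hR⟩ := exists_syl (p := p) (H := H) (x := x) (Q := ⊥) bot_le IsPGroup.of_bot
      (by rintro r hr; rw [Subgroup.mem_bot.1 hr]; simp)
    exact ⟨h1, R, ⟨hR.pg, hR.le⟩, hR⟩
  · exact fun h => h.1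

/-- The key lemma. -/
theorem key {p : ℕ} [Fact p.Prime] [CharP F p] {H : Subgroup Γ} {z : Γ → F}
    (hz : ∀ h ∈ H, ∀ x : Γ, z (h * x * h⁻¹) = z x) {X Y : Set (Subgroup Γ)} (hX : Stb H X)
    (hup : ∀ R ∈ Y, ∀ P ∈ X, R ≤ P → P ∈ Y) {w : Γ → F}
    (hw : w ∈ VS (SXA p H X \ SXA p H Y) H) {x : Γ} (hx : x ∈ SXA p H Y) :
    ∑ᶠ g : Γ, z g * w (g * x) = 0 := by
  obtain ⟨_, R, hR, hs⟩ := hx
  refine sum_zero p R hs.pg _ ?_ ?_
  · intro r hr g
    have h1 : r * g * r⁻¹ * x = r * (g * x) * r⁻¹ := by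
      have h2 : r⁻¹ * x = x * r⁻¹ := hs.cent _ (R.inv_mem hr)
      rw [mul_assoc, h2]
      simp [mul_assoc]
    rw [hz r (hs.le hr), h1, hw.2 r (hs.le hr)]
  · intro g hg
    by_contra hcon
    have h1 : w (g * x) ≠ 0 := right_ne_zero_of_mul hcon
    have h2 : g * x ∈ SXA p H X \ SXA p H Y := by
      by_contra h3
      exact h1 (hw.1 _ h3)
    obtain ⟨⟨h3, R1, hR1, hs1⟩, h5⟩ := h2
    apply h5
    have h6 : ∀ r ∈ R, r * (g * x) = g * x * r := by
      intro r hr
      rw [← mul_assoc, hg r hr, mul_assoc, hs.cent r hr, mul_assoc]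
    obtain ⟨P, hP, hsP⟩ := exists_syl hs.le hs.pg h6
    obtain ⟨h, hh, rfl⟩ := hs1.conj_of hsP
    exact ⟨h3, _, hup R hR _ (hX h hh R1 hR1) hP, hsP⟩

theorem kop_apply (z : Γ → F) (S : Set Γ) (v : Γ → F) (x : Γ) :
    Kop z S v x = if x ∈ S then ∑ᶠ g : Γ, z g * v (g * x) else 0 := rfl

theorem kop_mem {H : Subgroup Γ} {z : Γ → F}
    (hz : ∀ h ∈ H, ∀ x : Γ, z (h * x * h⁻¹) = z x) {S S' : Set Γ}
    (hS : ∀ h ∈ H, ∀ x ∈ S, h * x * h⁻¹ ∈ S) {v : Γ → F} (hv : v ∈ VS S' H) :
    Kop z S v ∈ VS S H := Kfun_mem hS hz hv.2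

/-- One step. -/
theorem gk_step (hLA : S_LA) {p : ℕ} [Fact p.Prime] [IsAlgClosed F] [CharP F p]
    {H : Subgroup Γ} {z : Γ → F}
    (hz : ∀ h ∈ H, ∀ x : Γ, z (h * x * h⁻¹) = z x) {X Y O : Set (Subgroup Γ)}
    (hY : Stb H Y) (hO : Stb H O) (hX : X = O ∪ Y) (hd : ∀ R ∈ O, R ∉ Y)
    (hup : ∀ R ∈ Y, ∀ P ∈ X, R ≤ P → P ∈ Y) (c : F) :
    gk z (SXA p H X) H c = gk z (SXA p H O) H c + gk z (SXA p H Y) H c := by
  have hXs : Stb H X := by
    rw [hX]
    rintro h hh R (hR | hR)
    · exact Or.inl (hO h hh R hR)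
    · exact Or.inr (hY h hh R hR)
  have hOX : SXA p H O ⊆ SXA p H X := SXA_mono (by rw [hX]; exact Set.subset_union_left)
  have hYX : SXA p H Y ⊆ SXA p H X := SXA_mono (by rw [hX]; exact Set.subset_union_right)
  have hXu : SXA p H X = SXA p H O ∪ SXA p H Y := by rw [hX, SXA_union]
  have hOY : SXA p H O ⊆ SXA p H X \ SXA p H Y := fun x hx => ⟨hOX hx, SXA_disj hO hd hx⟩
  have cX : ∀ h ∈ H, ∀ x ∈ SXA p H X, h * x * h⁻¹ ∈ SXA p H X :=
    fun h hh x hx => SXA_conj hXs hh hx
  have cY : ∀ h ∈ H, ∀ x ∈ SXA p H Y, h * x * h⁻¹ ∈ SXA p H Y :=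
    fun h hh x hx => SXA_conj hY hh hx
  have cO : ∀ h ∈ H, ∀ x ∈ SXA p H O, h * x * h⁻¹ ∈ SXA p H O :=
    fun h hh x hx => SXA_conj hO hh hx
  have h1 := hLA F (Γ → F) (Kop z (SXA p H X)) (Kop z (SXA p H Y)) (rst (SXA p H Y))
    (VS (SXA p H X) H) (VS (SXA p H O) H) (VS (SXA p H Y) H)
    (fun v hv => kop_mem hz cX hv) (fun v hv => kop_mem hz cY hv) (VS_mono hOX H)
    (fun v hv => rst_mem cY hv)
    (by
      intro w hw
      refine ⟨w, VS_mono hYX H hw, ?_⟩
      funext x
      rw [rst_apply]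
      by_cases hx : x ∈ SXA p H Y
      · rw [if_pos hx]
      · rw [if_neg hx, hw.1 x hx])
    (by
      intro v hv
      constructor
      · intro h
        refine ⟨?_, hv.2⟩
        intro x hx
        by_cases hx' : x ∈ SXA p H Y
        · have h2 := congrFun h x
          rw [rst_apply, if_pos hx'] at h2
          exact h2
        · apply hv.1
          rw [hXu]
          rintro (h3 | h3)
          · exact hx h3
          · exact hx' h3
      · intro h
        funext x
        rw [rst_apply]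
        by_cases hx : x ∈ SXA p H Y
        · rw [if_pos hx]
          apply h.1
          intro h3
          exact SXA_disj hO hd h3 hx
        · rw [if_neg hx]
          rfl)
    (by
      intro v hv
      funext x
      rw [rst_apply, kop_apply, kop_apply]
      by_cases hx : x ∈ SXA p H Y
      · rw [if_pos hx, if_pos hx, if_pos (hYX hx)]
        have h2 : v - rst (SXA p H Y) v ∈ VS (SXA p H X \ SXA p H Y) H := by
          have h3 : v - rst (SXA p H Y) v ∈ VS (SXA p H X) H :=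
            Submodule.sub_mem _ hv (VS_mono hYX H (rst_mem cY hv))
          refine ⟨?_, h3.2⟩
          intro y hy
          by_cases hy' : y ∈ SXA p H Y
          · rw [Pi.sub_apply, rst_apply, if_pos hy', sub_self]
          · exact h3.1 y fun hy2 => hy ⟨hy2, hy'⟩
        have h3 := key hz hXs hup h2 hx
        have h4 : ∑ᶠ g : Γ, z g * v (g * x) =
            ∑ᶠ g : Γ, z g * (v - rst (SXA p H Y) v) (g * x) +
              ∑ᶠ g : Γ, z g * rst (SXA p H Y) v (g * x) := by
          rw [← finsum_add_distrib (Set.toFinite _) (Set.toFinite _)]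
          refine finsum_congr fun g => ?_
          rw [Pi.sub_apply]
          ring
        rw [h4, h3, zero_add]
      · rw [if_neg hx, if_neg hx])
    c
  have h2 : VS (SXA p H O) H ⊓ (Kop z (SXA p H X)).maxGenEigenspace c =
      VS (SXA p H O) H ⊓ (Kop z (SXA p H O)).maxGenEigenspace c := by
    apply gen_eq
    · intro v hv
      funext x
      rw [kop_apply, kop_apply]
      by_cases hx : x ∈ SXA p H O
      · rw [if_pos hx, if_pos (hOX hx)]
      · rw [if_neg hx]
        by_cases hx' : x ∈ SXA p H X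
        · rw [if_pos hx']
          have hx2 : x ∈ SXA p H Y := by
            rw [hXu] at hx'
            exact hx'.resolve_left hx
          exact key hz hXs hup (VS_mono hOY H hv) hx2
        · rw [if_neg hx']
    · intro v hv
      exact kop_mem hz cO hv
  rw [h2] at h1
  exact h1

theorem main_ind (hLA : S_LA) {p : ℕ} [Fact p.Prime] [IsAlgClosed F] [CharP F p]
    {H : Subgroup Γ} {z : Γ → F}
    (hz : ∀ h ∈ H, ∀ x : Γ, z (h * x * h⁻¹) = z x) (c : F) (X : Finset (Subgroup Γ))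
    (hg : ∀ R ∈ X, GoodA p H R) (hX : Stb H (X : Set (Subgroup Γ)))
    (hup : ∀ R ∈ X, ∀ P, GoodA p H P → R ≤ P → P ∈ X) :
    Nat.card H * gk z (SXA p H (X : Set (Subgroup Γ))) H c =
      ∑ R ∈ X, Nat.card ↥(H ⊓ Subgroup.normalizer (R : Set Γ)) *
        gk z (SXA p H (orb H R)) H c := by
  induction X using Finset.strongInduction with
  | H X ih =>
    by_cases hne : X.Nonempty
    · obtain ⟨R0, hR0, hmin⟩ := X.exists_min_image (fun R => Nat.card R) hne
      have hOX : orb H R0 ⊆ (X : Set (Subgroup Γ)) := by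
        rintro _ ⟨h, hh, rfl⟩
        exact hX h hh R0 hR0
      let O : Finset (Subgroup Γ) := X.filter (fun R => R ∈ orb H R0)
      let Y : Finset (Subgroup Γ) := X.filter (fun R => R ∉ orb H R0)
      have hO : (O : Set (Subgroup Γ)) = orb H R0 := by
        ext R
        simp only [O, Finset.coe_filter, Set.mem_ofPred_eq]
        exact ⟨fun h => h.2, fun h => ⟨hOX h, h⟩⟩
      have hYX : Y ⊂ X := by
        refine Finset.filter_ssubset.2 ⟨R0, hR0, ?_⟩
        exact fun h => h (self_orb H R0)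
      have hYs : Stb H (Y : Set (Subgroup Γ)) := by
        intro h hh R hR
        have hR' := Finset.mem_filter.1 (Finset.mem_coe.1 hR)
        refine Finset.mem_coe.2 (Finset.mem_filter.2 ⟨hX h hh R hR'.1, ?_⟩)
        intro h3
        apply hR'.2
        have h4 := stb_orb H R0 _ (H.inv_mem hh) _ h3
        rwa [cj_inv_cj] at h4
      have hYup : ∀ R ∈ Y, ∀ P, GoodA p H P → R ≤ P → P ∈ Y := by
        intro R hR P hP hRP
        have hR' := Finset.mem_filter.1 hR
        refine Finset.mem_filter.2 ⟨hup R hR'.1 P hP hRP, ?_⟩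
        rintro ⟨k, hk, rfl⟩
        apply hR'.2
        have h3 := hmin R hR'.1
        rw [← card_cj k R0] at h3
        have h4 : R = cj k R0 := Subgroup.eq_of_le_of_card_ge hRP h3
        rw [h4]
        exact ⟨k, hk, rfl⟩
      have hXu : (X : Set (Subgroup Γ)) = orb H R0 ∪ (Y : Set (Subgroup Γ)) := by
        ext R
        constructor
        · intro hR
          by_cases h : R ∈ orb H R0
          · exact Or.inl h
          · exact Or.inr (Finset.mem_coe.2 (Finset.mem_filter.2 ⟨hR, h⟩))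
        · rintro (hR | hR)
          · exact hOX hR
          · exact Finset.mem_coe.2 (Finset.mem_filter.1 (Finset.mem_coe.1 hR)).1
      have h1 := gk_step hLA hz hYs (stb_orb H R0) hXu
        (fun R hR hR' => (Finset.mem_filter.1 (Finset.mem_coe.1 hR')).2 hR)
        (fun R hR P hP hRP => Finset.mem_coe.2
          (hYup R (Finset.mem_coe.1 hR) P (hg P (Finset.mem_coe.1 hP)) hRP)) c
      have h2 := ih Y hYX (fun R hR => hg R (Finset.mem_filter.1 hR).1) hYs hYup
      have h3 : ∑ R ∈ O, Nat.card ↥(H ⊓ Subgroup.normalizer (R : Set Γ)) *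
          gk z (SXA p H (orb H R)) H c = Nat.card H * gk z (SXA p H (orb H R0)) H c := by
        have h4 : ∀ R ∈ O, Nat.card ↥(H ⊓ Subgroup.normalizer (R : Set Γ)) *
            gk z (SXA p H (orb H R)) H c =
            Nat.card ↥(H ⊓ Subgroup.normalizer (R0 : Set Γ)) *
            gk z (SXA p H (orb H R0)) H c := by
          intro R hR
          have h5 : R ∈ orb H R0 := (Finset.mem_filter.1 hR).2
          have h6 := card_orb H R
          rw [orb_eq h5] at h6 ⊢
          have h7 := card_orb H R0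
          have h8 : 0 < Nat.card (orb H R0) := by
            have : Nonempty (orb H R0) := ⟨⟨R0, self_orb H R0⟩⟩
            exact Nat.card_pos
          rw [← h7] at h6
          rw [Nat.eq_of_mul_eq_mul_left h8 h6]
        rw [Finset.sum_congr rfl h4, Finset.sum_const, smul_eq_mul, ← mul_assoc]
        congr 1
        have h5 : O.card = Nat.card (orb H R0) := by
          rw [← hO]
          simp
        rw [h5]
        exact card_orb H R0
      rw [h1, mul_add, h2, ← h3]
      exact Finset.sum_filter_add_sum_filter_not X (fun R => R ∈ orb H R0) _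
    · rw [Finset.not_nonempty_iff_eq_empty] at hne
      subst hne
      rw [Finset.sum_empty]
      have h1 : SXA p H ((∅ : Finset (Subgroup Γ)) : Set (Subgroup Γ)) = ∅ := by
        ext x
        simp [SXA]
      have h2 : (VS (∅ : Set Γ) H : Submodule F (Γ → F)) = ⊥ := by
        rw [eq_bot_iff]
        intro v hv
        rw [Submodule.mem_bot]
        funext x
        exact hv.1 x (by simp)
      rw [h1, gk, h2, bot_inf_eq, finrank_bot, mul_zero]

end

theorem kfilt (h1 : S_LA) : S_KFILT := by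
  intro p hp F _ _ _ Γ _ _ H z c hinv hsupp
  have : Fintype (Subgroup Γ) := Fintype.ofFinite _
  have h3 := main_ind h1 hinv c (Finset.univ.filter (fun R => GoodA p H R))
    (fun R hR => (Finset.mem_filter.1 hR).2)
    (by
      intro h hh R hR
      rw [Finset.coe_filter] at hR ⊢
      exact ⟨Finset.mem_univ _, stb_goodA h hh R hR.2⟩)
    (fun R _ P hP _ => Finset.mem_filter.2 ⟨Finset.mem_univ _, hP⟩)
  have h4 : ((Finset.univ.filter (fun R => GoodA p H R) : Finset (Subgroup Γ)) :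
      Set (Subgroup Γ)) = {R | GoodA p H R} := by
    ext R
    simp
  rw [h4, ← h0_eq] at h3
  rw [h3, finsum_eq_sum_of_fintype, Finset.sum_filter]
  refine Finset.sum_congr rfl fun R _ => ?_
  by_cases hR : IsPGroup p R ∧ R ≤ H
  · rw [if_pos hR, if_pos (show GoodA p H R from hR),
      ← kfilta p F Γ H z c hinv hsupp R hR.1 hR.2, sca_eq hR.2 hR.1]
  · rw [if_neg hR, if_neg (show ¬ GoodA p H R from hR)]

end Pool.Agent.R663.KRB
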