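import Pool.Agent.R663.KRB.Filta
import Pool.Agent.Y930.NV.Cen
import Pool.Agent.Helper884.IC.Compl

/-!
# The number of irreducible characters with a given value of the reduced central character
-/

set_option autoImplicit false

open scoped Classical Pointwise Polynomial

noncomputable section

namespace Pool.Agent.R663.KRB

open Pool.Agent.Y63.AWC (IsIrreducibleCharacter)
open Pool.Agent.Y63.NV
open Pool.Agent.Y930.NV (Cf ind mk_out Cf_out Cf_expand ind_out om om_sum om_int Tp Tp_eq irr_Cf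
  R centralValue_eq redC_of ind_cast Cf_ind)
open Pool.Agent.Helper884.IC (Irr mem_Irr expand B_irr B IsIrrChar IsClass)

section mat

variable {J : Type} [Group J] [Fintype J]

/-- the matrix of the multiplication by a class sum -/
def scn (A : Type) [CommRing A] (E : ConjClasses J) : Matrix (ConjClasses J) (ConjClasses J) A :=
  fun C D => ∑ g : J, ind A E g * ind A D (g * C.out)

theorem ind_map {A A' : Type} [CommRing A] [CommRing A'] (φ : A →+* A') (C : ConjClasses J)
    (x : J) : φ (ind A C x) = ind A' C x := by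
  unfold ind
  split_ifs <;> simp

theorem scn_map {A A' : Type} [CommRing A] [CommRing A'] (φ : A →+* A') (E : ConjClasses J) :
    (scn A E).map φ = scn A' E := by
  ext C D
  rw [Matrix.map_apply, scn, scn, map_sum]
  refine Finset.sum_congr rfl fun g _ => ?_
  rw [map_mul, ind_map, ind_map]

theorem scn_apply {A : Type} [CommRing A] (E : ConjClasses J) {θ : J → A} (hθ : Cf θ)
    (C : ConjClasses J) :
    ∑ g : J, ind A E g * θ (g * C.out) = ∑ D : ConjClasses J, scn A E C D * θ D.out := by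
  have h1 : ∀ g : J, ind A E g * θ (g * C.out) =
      ∑ D : ConjClasses J, ind A E g * ind A D (g * C.out) * θ D.out := by
    intro g
    conv_lhs => rw [Cf_expand hθ (g * C.out), Finset.mul_sum]
    refine Finset.sum_congr rfl fun D _ => ?_
    ring
  simp_rw [h1]
  rw [Finset.sum_comm]
  refine Finset.sum_congr rfl fun D _ => ?_
  rw [scn, Finset.sum_mul]

theorem irr_eig {χ : J → ℂ} (h : IsIrreducibleCharacter χ) {f : J → ℂ} (hf : Cf f) (x : J) :
    ∑ g : J, f g * χ (g * x) = om χ f * χ x := by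
  obtain ⟨V, _, _, _, ρ, hr, rfl⟩ := h
  have h1 := Tp_eq ρ hr f hf
  have h2 := congrArg (fun T : Module.End ℂ V => LinearMap.trace ℂ V (T * ρ x)) h1
  simp only [Tp, Finset.sum_mul, map_sum, smul_mul_assoc, one_mul, map_smul, smul_eq_mul] at h2
  have h3 : ∀ y : J, LinearMap.trace ℂ V (ρ y) = ρ.character y := fun y => rfl
  rw [h3] at h2
  rw [← h2]
  refine Finset.sum_congr rfl fun g _ => ?_
  rw [← map_mul, h3]

/-- the character table -/
def Xm (J : Type) [Group J] [Fintype J] : Matrix (ConjClasses J) {χ : J → ℂ // χ ∈ Irr J} ℂ :=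
  fun C χ => χ.1 C.out

/-- the inverse of the character table -/
def Ym (J : Type) [Group J] [Fintype J] : Matrix {χ : J → ℂ // χ ∈ Irr J} (ConjClasses J) ℂ :=
  fun χ C => B (ind ℂ C) χ.1

theorem XY : Xm J * Ym J = 1 := by
  ext C D
  rw [Matrix.mul_apply]
  have h1 := congrFun (expand (ind ℂ D) (fun g y => Cf_ind ℂ D y g)) C.out
  rw [ind_out, Finset.sum_apply] at h1
  rw [Matrix.one_apply, h1]
  have h2 := Finset.sum_coe_sort (Irr J) (fun χ : J → ℂ => (B (ind ℂ D) χ • χ) C.out)
  rw [← h2]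
  refine Finset.sum_congr rfl fun χ _ => ?_
  rw [Pi.smul_apply, smul_eq_mul, mul_comm]
  rfl

theorem YX : Ym J * Xm J = 1 := by
  ext χ ψ
  rw [Matrix.mul_apply, Matrix.one_apply]
  have h1 : ψ.1 = ∑ C : ConjClasses J, ψ.1 C.out • ind ℂ C := by
    funext x
    have h2 := Cf_expand (irr_Cf (mem_Irr.1 ψ.2)) x
    rw [Finset.sum_apply, h2]
    rfl
  have h2 := B_irr (mem_Irr.1 ψ.2) (mem_Irr.1 χ.2)
  conv_lhs at h2 => rw [h1, Pool.Agent.Helper884.IC.B_sum_left]
  have h3 : ∀ C : ConjClasses J, B (ψ.1 C.out • ind ℂ C) χ.1 = Ym J χ C * Xm J C ψ := by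
    intro C
    rw [Pool.Agent.Helper884.IC.B_smul_left, mul_comm]
    rfl
  rw [Finset.sum_congr rfl fun C _ => h3 C] at h2
  rw [h2]
  by_cases h : χ = ψ
  · rw [if_pos h, if_pos (by rw [h])]
  · rw [if_neg h, if_neg (fun h' => h (Subtype.ext h'.symm))]

theorem card_irr_eq : Fintype.card (ConjClasses J) = Fintype.card {χ : J → ℂ // χ ∈ Irr J} :=
  Matrix.square_of_invertible _ _ XY YX

theorem scn_X (E : ConjClasses J) :
    scn ℂ E * Xm J = Xm J * Matrix.diagonal (fun χ : {χ : J → ℂ // χ ∈ Irr J} =>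
      om χ.1 (ind ℂ E)) := by
  ext C χ
  rw [Matrix.mul_apply, Matrix.mul_diagonal]
  have h1 := scn_apply (A := ℂ) E (irr_Cf (mem_Irr.1 χ.2)) C
  have h2 := irr_eig (mem_Irr.1 χ.2) (Cf_ind ℂ E) C.out
  rw [h1] at h2
  rw [mul_comm]
  exact h2

/-- the matrix of the multiplication by a central element -/
def Mt {A : Type} [CommRing A] (t : ConjClasses J → A) :
    Matrix (ConjClasses J) (ConjClasses J) A := ∑ E : ConjClasses J, t E • scn A E

theorem Mt_map {A A' : Type} [CommRing A] [CommRing A'] (φ : A →+* A') (t : ConjClasses J → A) :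
    (Mt t).map φ = Mt (fun E => φ (t E)) := by
  ext C D
  rw [Matrix.map_apply, Mt, Mt, Matrix.sum_apply, Matrix.sum_apply, map_sum]
  refine Finset.sum_congr rfl fun E _ => ?_
  rw [Matrix.smul_apply, Matrix.smul_apply, smul_eq_mul, smul_eq_mul, map_mul, ← scn_map φ E]
  rfl

theorem charpoly_one {A : Type} [CommRing A] [IsDomain A] (κ : ℂ →+* A) (t : ConjClasses J → A) :
    (Mt t).charpoly = ∏ χ : {χ : J → ℂ // χ ∈ Irr J}, (Polynomial.X -
      Polynomial.C (∑ E : ConjClasses J, t E * κ (om χ.1 (ind ℂ E)))) := by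
  set d : {χ : J → ℂ // χ ∈ Irr J} → A := fun χ =>
    ∑ E : ConjClasses J, t E * κ (om χ.1 (ind ℂ E)) with hd
  have h1 : (Xm J).map κ * (Ym J).map κ = 1 := by
    rw [← Matrix.map_mul, XY, Matrix.map_one κ (map_zero κ) (map_one κ)]
  have h2 : (Ym J).map κ * (Xm J).map κ = 1 := by
    rw [← Matrix.map_mul, YX, Matrix.map_one κ (map_zero κ) (map_one κ)]
  have h3 : Mt t * (Xm J).map κ = (Xm J).map κ * Matrix.diagonal d := by
    rw [Mt, Matrix.sum_mul]
    have h4 : ∀ E : ConjClasses J, (t E • scn A E) * (Xm J).map κ =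
        (Xm J).map κ * Matrix.diagonal (fun χ : {χ : J → ℂ // χ ∈ Irr J} =>
          t E * κ (om χ.1 (ind ℂ E))) := by
      intro E
      have h5 := congrArg (fun M : Matrix (ConjClasses J) {χ : J → ℂ // χ ∈ Irr J} ℂ => M.map κ)
        (scn_X E)
      simp only [Matrix.map_mul] at h5
      rw [scn_map κ E] at h5
      rw [Matrix.smul_mul, h5]
      ext C χ
      rw [Matrix.smul_apply, Matrix.diagonal_map (map_zero κ), Matrix.mul_diagonal,
        Matrix.mul_diagonal, smul_eq_mul]
      ring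
    rw [Finset.sum_congr rfl fun E _ => h4 E, ← Matrix.mul_sum]
    congr 1
    ext χ ψ
    rw [Matrix.sum_apply]
    by_cases h : χ = ψ
    · subst h
      simp [hd]
    · simp [Matrix.diagonal_apply_ne _ h]
  have h4 : Mt t = (Xm J).map κ * (Matrix.diagonal d * (Ym J).map κ) := by
    rw [← Matrix.mul_assoc, ← h3, Matrix.mul_assoc, h1, Matrix.mul_one]
  have h5 := Matrix.charpoly_mul_comm' ((Xm J).map κ) (Matrix.diagonal d * (Ym J).map κ)
  rw [← h4, Matrix.mul_assoc, h2, Matrix.mul_one, card_irr_eq] at h5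
  have h6 := mul_left_cancel₀ (pow_ne_zero _ Polynomial.X_ne_zero) h5
  rw [h6, Matrix.charpoly_diagonal]

/-- the value of the central character as an algebraic integer -/
def omI (χ : {χ : J → ℂ // χ ∈ Irr J}) (E : ConjClasses J) : integralClosure ℤ ℂ :=
  ⟨om χ.1 (fun g => ((ind ℤ E g : ℤ) : ℂ)), om_int (mem_Irr.1 χ.2) (Cf_ind ℤ E)⟩

theorem iota_omI (χ : {χ : J → ℂ // χ ∈ Irr J}) (E : ConjClasses J) :
    algebraMap (integralClosure ℤ ℂ) ℂ (omI χ E) = om χ.1 (ind ℂ E) := by
  rw [← ind_cast]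
  rfl

theorem iota_inj : Function.Injective (algebraMap (integralClosure ℤ ℂ) ℂ) :=
  fun _ _ h => Subtype.ext h

theorem term_two (χ : {χ : J → ℂ // χ ∈ Irr J}) :
    MvPolynomial.map (algebraMap (integralClosure ℤ ℂ) ℂ)
      (∑ E : ConjClasses J, MvPolynomial.X E * MvPolynomial.C (omI χ E)) =
    ∑ E : ConjClasses J, MvPolynomial.X E * MvPolynomial.C (om χ.1 (ind ℂ E)) := by
  rw [map_sum]
  refine Finset.sum_congr rfl fun E _ => ?_
  rw [map_mul, MvPolynomial.map_X, MvPolynomial.map_C, iota_omI]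

theorem charpoly_two : (Mt (J := J) (A := MvPolynomial (ConjClasses J) (integralClosure ℤ ℂ))
      (fun E => MvPolynomial.X E)).charpoly =
    ∏ χ : {χ : J → ℂ // χ ∈ Irr J}, (Polynomial.X -
      Polynomial.C (∑ E : ConjClasses J, MvPolynomial.X E * MvPolynomial.C (omI χ E))) := by
  apply Polynomial.map_injective _ (MvPolynomial.map_injective _ iota_inj)
  rw [← Matrix.charpoly_map, Mt_map, Polynomial.map_prod]
  have h0 : ∀ E : ConjClasses J, MvPolynomial.map (algebraMap (integralClosure ℤ ℂ) ℂ)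
      (MvPolynomial.X E) = MvPolynomial.X E := fun E => MvPolynomial.map_X _ _
  have h1 : (fun E : ConjClasses J => MvPolynomial.map (algebraMap (integralClosure ℤ ℂ) ℂ)
      (MvPolynomial.X E)) = fun E => MvPolynomial.X E := funext h0
  rw [h1, charpoly_one MvPolynomial.C]
  refine Finset.prod_congr rfl fun χ _ => ?_
  rw [Polynomial.map_sub, Polynomial.map_X, Polynomial.map_C, term_two]

theorem charpoly_three {F : Type} [Field F] (red : integralClosure ℤ ℂ →+* F) (f : J → F) :
    (Mt (J := J) (fun E => f E.out)).charpoly =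
    ∏ χ : {χ : J → ℂ // χ ∈ Irr J}, (Polynomial.X - Polynomial.C (centralValue red χ.1 f)) := by
  have h1 := congrArg (Polynomial.map
    (MvPolynomial.eval₂Hom red (fun E : ConjClasses J => f E.out))) (charpoly_two (J := J))
  rw [← Matrix.charpoly_map, Mt_map, Polynomial.map_prod] at h1
  simp only [MvPolynomial.coe_eval₂Hom, MvPolynomial.eval₂_X] at h1
  rw [h1]
  refine Finset.prod_congr rfl fun χ _ => ?_
  rw [Polynomial.map_sub, Polynomial.map_X, Polynomial.map_C, map_sum,
    centralValue_eq red (mem_Irr.1 χ.2)]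
  refine congrArg (fun y : F => (Polynomial.X : F[X]) - Polynomial.C y)
    (Finset.sum_congr rfl fun E _ => ?_)
  rw [map_mul, MvPolynomial.coe_eval₂Hom, MvPolynomial.eval₂_X, MvPolynomial.eval₂_C]
  congr 1
  rw [R, redC_of red (om_int (mem_Irr.1 χ.2) (Cf_ind ℤ E))]
  rfl

theorem Knum_eq {F : Type} [Field F] (red : integralClosure ℤ ℂ →+* F) (f : J → F) (c : F) :
    Knum red f c = (Mt (J := J) (fun E => f E.out)).charpoly.rootMultiplicity c := by
  rw [charpoly_three red f, ← Polynomial.count_roots]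
  have h1 : (∏ χ : {χ : J → ℂ // χ ∈ Irr J}, (Polynomial.X -
      Polynomial.C (centralValue red χ.1 f))).roots =
      (Finset.univ : Finset {χ : J → ℂ // χ ∈ Irr J}).val.map
        (fun χ => centralValue red χ.1 f) := by
    rw [← Polynomial.roots_multiset_prod_X_sub_C ((Finset.univ :
      Finset {χ : J → ℂ // χ ∈ Irr J}).val.map (fun χ => centralValue red χ.1 f)),
      Multiset.map_map]
    rfl
  rw [h1, Multiset.count_map, Knum]
  have h2 : Multiset.card (Multiset.filter (fun χ : {χ : J → ℂ // χ ∈ Irr J} =>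
      c = centralValue red χ.1 f) Finset.univ.val) =
      (Finset.univ.filter (fun χ : {χ : J → ℂ // χ ∈ Irr J} =>
        c = centralValue red χ.1 f)).card := rfl
  rw [h2, ← Fintype.card_subtype, ← Nat.card_eq_fintype_card]
  refine Nat.card_congr ?_
  refine ⟨fun χ => ⟨⟨χ.1, mem_Irr.2 χ.2.1⟩, χ.2.2.symm⟩,
    fun χ => ⟨χ.1.1, mem_Irr.1 χ.1.2, χ.2.symm⟩, fun χ => rfl, fun χ => rfl⟩

end mat

/-! ### Linear algebra -/

theorem finrank_eq' {F E E₂ : Type} [Field F] [AddCommGroup E] [Module F E] [AddCommGroup E₂]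
    [Module F E₂]
    (T : Module.End F E) (T₂ : Module.End F E₂) (π : E →ₗ[F] E₂) (V : Submodule F E)
    (hT : ∀ v ∈ V, T v ∈ V)
    (hs : ∀ w : E₂, ∃ v ∈ V, π v = w) (hk : ∀ v ∈ V, π v = 0 → v = 0)
    (hc : ∀ v ∈ V, π (T v) = T₂ (π v)) (c : F) :
    Module.finrank F ↥(V ⊓ T.maxGenEigenspace c) =
      Module.finrank F ↥(T₂.maxGenEigenspace c) := by
  have hit : ∀ (k : ℕ) (v : E), v ∈ V → ((T - c • (1 : Module.End F E)) ^ k) v ∈ V ∧
      π (((T - c • (1 : Module.End F E)) ^ k) v) =
        ((T₂ - c • (1 : Module.End F E₂)) ^ k) (π v) := by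
    intro k
    induction k with
    | zero => intro v hv; simpa using hv
    | succ k ih =>
      intro v hv
      have h1 : (T - c • (1 : Module.End F E)) v ∈ V := by
        rw [LinearMap.sub_apply, LinearMap.smul_apply, Module.End.one_apply]
        exact V.sub_mem (hT v hv) (V.smul_mem c hv)
      have h2 : π ((T - c • (1 : Module.End F E)) v) =
          (T₂ - c • (1 : Module.End F E₂)) (π v) := by
        rw [LinearMap.sub_apply, LinearMap.smul_apply, Module.End.one_apply, LinearMap.sub_apply,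
          LinearMap.smul_apply, Module.End.one_apply, map_sub, map_smul, hc v hv]
      rw [pow_succ, pow_succ, Module.End.mul_apply, Module.End.mul_apply, ← h2]
      exact ih _ h1
  have hmap : (V ⊓ T.maxGenEigenspace c).map π = T₂.maxGenEigenspace c := by
    apply le_antisymm
    · rintro _ ⟨v, hv, rfl⟩
      obtain ⟨hv1, hv2⟩ := Submodule.mem_inf.1 hv
      rw [Module.End.mem_maxGenEigenspace] at hv2 ⊢
      obtain ⟨k, hk⟩ := hv2
      refine ⟨k, ?_⟩
      rw [← (hit k v hv1).2, hk, map_zero]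
    · intro w hw2
      obtain ⟨v, hv, rfl⟩ := hs w
      refine ⟨v, Submodule.mem_inf.2 ⟨hv, ?_⟩, rfl⟩
      rw [Module.End.mem_maxGenEigenspace] at hw2 ⊢
      obtain ⟨k, hk'⟩ := hw2
      refine ⟨k, hk _ (hit k v hv).1 ?_⟩
      rw [(hit k v hv).2, hk']
  have hinj : Function.Injective (π.domRestrict (V ⊓ T.maxGenEigenspace c)) := by
    rw [injective_iff_map_eq_zero]
    rintro ⟨v, hv⟩ h0
    rw [Subtype.ext_iff]
    exact hk v (Submodule.mem_inf.1 hv).1 h0
  rw [← hmap, ← LinearMap.range_domRestrict]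
  exact (LinearEquiv.ofInjective _ hinj).finrank_eq

/-! ### The statement -/

/-- the values at the representatives of the classes -/
def evC {F : Type} [Field F] (J : Type) [Group J] :
    (J → F) →ₗ[F] (ConjClasses J → F) where
  toFun θ C := θ C.out
  map_add' _ _ := rfl
  map_smul' _ _ := rfl

theorem kdim_gen {F : Type} [Field F] (red : integralClosure ℤ ℂ →+* F) {J : Type} [Group J]
    [Fintype J] {E : Type} [AddCommGroup E] [Module F E] (T : Module.End F E) (V : Submodule F E)
    (π : E →ₗ[F] (J → F)) (f : J → F) (hf : Cf f) (hT : ∀ v ∈ V, T v ∈ V)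
    (hcl : ∀ v ∈ V, Cf (π v)) (hs : ∀ w : J → F, Cf w → ∃ v ∈ V, π v = w)
    (hk : ∀ v ∈ V, π v = 0 → v = 0)
    (hc : ∀ v ∈ V, ∀ x : J, π (T v) x = ∑ g : J, f g * π v (g * x)) (c : F) :
    Module.finrank F ↥(V ⊓ T.maxGenEigenspace c) = Knum red f c := by
  rw [Knum_eq, ← Matrix.charpoly_toLin', ← LinearMap.finrank_maxGenEigenspace_eq]
  refine finrank_eq' T (Matrix.toLin' _) (evC J ∘ₗ π) V hT ?_ ?_ ?_ c
  · intro w
    obtain ⟨v, hv, hv'⟩ := hs (fun x => w (ConjClasses.mk x)) (by
      intro g x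
      show w (ConjClasses.mk (g * x * g⁻¹)) = w (ConjClasses.mk x)
      rw [Pool.Agent.Y930.NV.mk_conj])
    refine ⟨v, hv, ?_⟩
    funext C
    show π v C.out = w C
    rw [hv']
    exact congrArg w (mk_out C)
  · intro v hv h0
    apply hk v hv
    funext x
    rw [← Cf_out (hcl v hv) (x := x) (C := ConjClasses.mk x) rfl]
    exact congrFun h0 (ConjClasses.mk x)
  · intro v hv
    funext C
    show π (T v) C.out = _
    rw [hc v hv, Matrix.toLin'_apply]
    have h1 : ∀ h : J, f h * π v (h * C.out) =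
        ∑ E : ConjClasses J, f E.out * (ind F E h * π v (h * C.out)) := by
      intro h
      conv_lhs => rw [Cf_expand hf h, Finset.sum_mul]
      refine Finset.sum_congr rfl fun E _ => ?_
      ring
    rw [Finset.sum_congr rfl fun h _ => h1 h, Finset.sum_comm]
    have h3 : ∀ E : ConjClasses J, ∑ h : J, f E.out * (ind F E h * π v (h * C.out)) =
        ∑ D : ConjClasses J, f E.out * (scn F E C D * π v D.out) := by
      intro E
      rw [← Finset.mul_sum, scn_apply E (hcl v hv) C, Finset.mul_sum]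
    rw [Finset.sum_congr rfl fun E _ => h3 E, Finset.sum_comm]
    show _ = ∑ D : ConjClasses J, Mt (fun E => f E.out) C D * π v D.out
    refine Finset.sum_congr rfl fun D _ => ?_
    rw [Mt, Matrix.sum_apply, Finset.sum_mul]
    refine Finset.sum_congr rfl fun E _ => ?_
    rw [Matrix.smul_apply, smul_eq_mul, mul_assoc]

theorem sum_H {F : Type} [Field F] {Γ : Type} [Group Γ] [Fintype Γ] (H : Subgroup Γ) [Fintype H]
    (z u : Γ → F) (hz : ∀ x : Γ, x ∉ H → z x = 0) :
    ∑ᶠ g : Γ, z g * u g = ∑ h : H, z h * u h := by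
  rw [finsum_eq_sum_of_fintype]
  have h1 : ∑ g : Γ, z g * u g = ∑ g ∈ Finset.univ.filter (fun g : Γ => g ∈ H), z g * u g := by
    rw [Finset.sum_filter]
    refine Finset.sum_congr rfl fun g _ => ?_
    by_cases hg : g ∈ H
    · rw [if_pos hg]
    · rw [if_neg hg, hz g hg, zero_mul]
  rw [h1]
  refine (Finset.sum_subtype _ (fun x => ?_) _)
  simp

/-- restriction to a subgroup -/
def resH {F : Type} [Field F] {Γ : Type} [Group Γ] (H : Subgroup Γ) : (Γ → F) →ₗ[F] (H → F) where
  toFun θ h := θ h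
  map_add' _ _ := rfl
  map_smul' _ _ := rfl

theorem kdimh : S_KDIMH := by
  intro p _ F _ _ _ red Γ _ _ H z c hinv hsupp
  have : Fintype H := Fintype.ofFinite H
  have : Fintype Γ := Fintype.ofFinite Γ
  rw [gk]
  symm
  have hcH : ∀ h ∈ H, ∀ x ∈ (H : Set Γ), h * x * h⁻¹ ∈ (H : Set Γ) := fun h hh x hx =>
    H.mul_mem (H.mul_mem hh hx) (H.inv_mem hh)
  refine kdim_gen red (Kop z (H : Set Γ)) (VS (H : Set Γ) H) (resH H) (fun x : H => z x) ?_ ?_ ?_
    ?_ ?_ ?_ c
  · exact fun g x => hinv g g.2 x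
  · intro θ hθ
    exact Kfun_mem hcH hinv hθ.2
  · exact fun θ hθ g x => hθ.2 g g.2 x
  · intro w hw
    refine ⟨fun x => if hx : x ∈ H then w ⟨x, hx⟩ else 0, ⟨?_, ?_⟩, ?_⟩
    · intro x hx
      exact dif_neg hx
    · intro j hj x
      by_cases hx : x ∈ H
      · have hx' : j * x * j⁻¹ ∈ H := H.mul_mem (H.mul_mem hj hx) (H.inv_mem hj)
        simp only [hx, hx', dif_pos]
        exact hw ⟨j, hj⟩ ⟨x, hx⟩
      · have hx' : j * x * j⁻¹ ∉ H := by
          intro h1
          apply hx
          have h2 := H.mul_mem (H.mul_mem (H.inv_mem hj) h1) hj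
          have h3 : j⁻¹ * (j * x * j⁻¹) * j = x := by group
          rwa [h3] at h2
        simp only [hx, hx', dif_neg, not_false_iff]
    · funext x
      show (if hx : (x : Γ) ∈ H then w ⟨x, hx⟩ else 0) = w x
      rw [dif_pos x.2]
  · intro θ hθ h0
    funext x
    by_cases hx : x ∈ H
    · exact congrFun h0 ⟨x, hx⟩
    · exact hθ.1 x hx
  · intro θ hθ x
    show Kfun z (H : Set Γ) θ (x : Γ) = ∑ g : H, z g * θ ((g * x : H) : Γ)
    unfold Kfun
    rw [if_pos (show (x : Γ) ∈ (H : Set Γ) from x.2)]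
    exact sum_H H z (fun g => θ (g * x)) hsupp

end Pool.Agent.R663.KRB
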